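import Pool.Agent.Y990.PL.Stm2
import Pool.Agent.Y554.PL.Bks
import Pool.Agent.Y46.PL.Split

set_option autoImplicit false

open MeasureTheory Set

/-!
TIGHT: the tightness step for cluster counts (part of the project PL of helper990).
-/

namespace Pool.Agent.Y288.PL

open Pool.Agent.W783.PC Pool.Agent.W424.PC Pool.Agent.Y990.PL

noncomputable section

variable {n : ℕ}

open scoped Classical in
/-- number of points of `L` in the cluster of `x` inside `R` -/
def ctR (E : Set (Sym2 (V n))) (R : Set (V n)) (L : Finset (V n)) (ω : Cfg n) (x : V n) : ℕ :=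
  (L.filter (fun y => (G E ω R).Reachable x y)).card

def CTR (E : Set (Sym2 (V n))) (R : Set (V n)) (L : Finset (V n)) (l : ℕ) (x : V n) :
    Set (Cfg n) := {ω | l ≤ ctR E R L ω x}

def MXR (E : Set (Sym2 (V n))) (R : Set (V n)) (L : Finset (V n)) (l : ℕ) : Set (Cfg n) :=
  {ω | ∃ x ∈ L, l ≤ ctR E R L ω x}

lemma ctR_mono {E : Set (Sym2 (V n))} {R R' : Set (V n)} {L : Finset (V n)} {ω ω' : Cfg n}
    {x x' : V n} (h : ∀ y ∈ L, (G E ω R).Reachable x y → (G E ω' R').Reachable x' y) :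
    ctR E R L ω x ≤ ctR E R' L ω' x' := by
  classical
  refine Finset.card_le_card fun y hy => ?_
  rw [Finset.mem_filter] at hy ⊢
  exact ⟨hy.1, h y hy.1 hy.2⟩

lemma ctR_dep {E : Set (Sym2 (V n))} {R : Set (V n)} {L : Finset (V n)} {ω ω' : Cfg n}
    (h : ∀ c ∈ Int' R ∩ rel E, ω c = ω' c) (x : V n) : ctR E R L ω x = ctR E R L ω' x := by
  refine le_antisymm (ctR_mono fun y _ hy => ?_) (ctR_mono fun y _ hy => ?_)
  · exact (Pool.Agent.W975.PC.s_reach_dep n E R x y ω ω' h).1 hy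
  · exact (Pool.Agent.W975.PC.s_reach_dep n E R x y ω ω' h).2 hy

lemma dep_CTR (E : Set (Sym2 (V n))) (R : Set (V n)) (L : Finset (V n)) (l : ℕ) (x : V n) :
    DepOn (CTR E R L l x) (Int' R ∩ rel E) := by
  intro ω ω' h
  simp only [CTR, mem_ofPred_eq, ctR_dep h]

lemma dep_MXR (E : Set (Sym2 (V n))) (R : Set (V n)) (L : Finset (V n)) (l : ℕ) :
    DepOn (MXR E R L l) (Int' R ∩ rel E) := by
  intro ω ω' h
  simp only [MXR, mem_ofPred_eq, ctR_dep h]

lemma reach_cfg {E : Set (Sym2 (V n))} {R : Set (V n)} {ω ω' : Cfg n}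
    (h : ∀ c, ω c = true → ω' c = true) {x y : V n} (hxy : (G E ω R).Reachable x y) :
    (G E ω' R).Reachable x y := by
  refine hxy.mono ?_
  rintro a b ⟨h1, h2, h3, h4, h5, h6, h7⟩
  exact ⟨h1, h2, h3, h4, h _ h5, h _ h6, h _ h7⟩

lemma cfgOf_mono {F F' : Finset (Ix n)} (h : F ⊆ F') (c : Ix n) (hc : cfgOf F c = true) :
    cfgOf F' c = true := by
  simp only [cfgOf, decide_eq_true_eq] at hc ⊢
  exact h hc

lemma cfgOf_true {F : Finset (Ix n)} {c : Ix n} : cfgOf F c = true ↔ c ∈ F := by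
  simp only [cfgOf, decide_eq_true_eq]

lemma reach_open {E : Set (Sym2 (V n))} {R : Set (V n)} {ω : Cfg n} {x y : V n}
    (hxy : (G E ω R).Reachable x y) :
    x = y ∨ (ω (Sum.inl x) = true ∧ ω (Sum.inl y) = true) := by
  rw [SimpleGraph.reachable_iff_reflTransGen] at hxy
  induction hxy with
  | refl => exact Or.inl rfl
  | tail _ hab ih =>
    obtain ⟨h1, h2, h3, h4, h5, h6, h7⟩ := hab
    rcases ih with rfl | ih
    · exact Or.inr ⟨h5, h6⟩
    · exact Or.inr ⟨ih.1, h6⟩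

open scoped Classical in
/-- the open sites and bonds of `F` inside `D` -/
def KD (F : Finset (Ix n)) (D : Finset (V n)) : Finset (Ix n) :=
  F.filter (fun c => (∃ x ∈ D, c = Sum.inl x) ∨
    ∃ x ∈ D, ∃ y ∈ D, x ≠ y ∧ c = Sum.inr s(x, y))

lemma mem_KD {F : Finset (Ix n)} {D : Finset (V n)} {c : Ix n} : c ∈ KD F D ↔ c ∈ F ∧
    ((∃ x ∈ D, c = Sum.inl x) ∨ ∃ x ∈ D, ∃ y ∈ D, x ≠ y ∧ c = Sum.inr s(x, y)) := by
  classical
  unfold KD
  rw [Finset.mem_filter]

lemma reach_KD {E : Set (Sym2 (V n))} {R : Set (V n)} {F : Finset (Ix n)} {D : Finset (V n)}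
    (hD : ((G E (cfgOf F) R).induce (D : Set (V n))).Connected) {x y : V n} (hx : x ∈ D)
    (hy : y ∈ D) : (G E (cfgOf (KD F D)) R).Reachable x y := by
  have h := hD.preconnected ⟨x, hx⟩ ⟨y, hy⟩
  let f : (G E (cfgOf F) R).induce (D : Set (V n)) →g G E (cfgOf (KD F D)) R :=
    { toFun := Subtype.val
      map_rel' := by
        rintro ⟨a, ha⟩ ⟨b, hb⟩ hab
        obtain ⟨h1, h2, h3, h4, h5, h6, h7⟩ := hab
        refine ⟨h1, h2, h3, h4, ?_, ?_, ?_⟩
        · rw [cfgOf_true, mem_KD]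
          exact ⟨cfgOf_true.1 h5, Or.inl ⟨a, ha, rfl⟩⟩
        · rw [cfgOf_true, mem_KD]
          exact ⟨cfgOf_true.1 h6, Or.inl ⟨b, hb, rfl⟩⟩
        · rw [cfgOf_true, mem_KD]
          exact ⟨cfgOf_true.1 h7, Or.inr ⟨a, ha, b, hb, h1, rfl⟩⟩ }
  exact h.map f

lemma key (E : Set (Sym2 (V n))) (R L : Finset (V n)) (hL : L ⊆ R) (l : ℕ) (hl : 1 ≤ l) (u : V n)
    (hu : u ∈ R) (F : Finset (Ix n)) (h : 3 * l ≤ ctR E (R : Set (V n)) L (cfgOf F) u) :
    ∃ K1 K2 : Finset (Ix n), K1 ⊆ F ∧ K2 ⊆ F ∧ (K1 ∩ K2).card ≤ 1 ∧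
      K1 ∩ K2 ⊆ R.image Sum.inl ∧ l ≤ ctR E (R : Set (V n)) L (cfgOf K1) u ∧
      ∃ x ∈ L, l ≤ ctR E (R : Set (V n)) L (cfgOf K2) x := by
  classical
  set H := G E (cfgOf F) (R : Set (V n)) with hH
  set C : Finset (V n) := R.filter (fun y => H.Reachable u y) with hC
  have huC : u ∈ C := by
    rw [hC, Finset.mem_filter]
    exact ⟨hu, SimpleGraph.Reachable.refl _⟩
  have hreach : ∀ y : V n, Relation.ReflTransGen H.Adj u y →
      ∃ hy : y ∈ (C : Set (V n)), (H.induce (C : Set (V n))).Reachable ⟨u, huC⟩ ⟨y, hy⟩ := by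
    intro y hy
    induction hy with
    | refl => exact ⟨huC, SimpleGraph.Reachable.refl _⟩
    | @tail b c hb hbc ih =>
      obtain ⟨hb', hr⟩ := ih
      have hc : c ∈ C := by
        rw [hC, Finset.mem_filter]
        refine ⟨hbc.2.2.1, ?_⟩
        rw [SimpleGraph.reachable_iff_reflTransGen]
        exact Relation.ReflTransGen.tail hb hbc
      refine ⟨hc, hr.trans (SimpleGraph.Adj.reachable ?_)⟩
      exact hbc
  have hconn : (H.induce (C : Set (V n))).Connected := by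
    rw [SimpleGraph.connected_iff_exists_forall_reachable]
    refine ⟨⟨u, huC⟩, ?_⟩
    rintro ⟨y, hy⟩
    have hy' : y ∈ C := hy
    rw [hC, Finset.mem_filter, SimpleGraph.reachable_iff_reflTransGen] at hy'
    exact (hreach y hy'.2).2
  have hcard : (C ∩ L).card = ctR E (R : Set (V n)) L (cfgOf F) u := by
    unfold ctR
    congr 1
    ext y
    rw [Finset.mem_inter, Finset.mem_filter, Finset.mem_filter]
    constructor
    · rintro ⟨⟨_, h2⟩, h3⟩; exact ⟨h3, h2⟩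
    · rintro ⟨h1, h2⟩; exact ⟨⟨hL h1, h2⟩, h1⟩
  obtain ⟨C1, C2, hC1, hC2, hC12, huC1, hc1, hc2, hl1, hl2⟩ :=
    Pool.Agent.Y46.PL.split (V n) H C L u l hl huC hconn (by rw [hcard]; exact h)
  have hcl : ∀ (D : Finset (V n)) (x : V n), x ∈ D → (H.induce (D : Set (V n))).Connected →
      l ≤ (D ∩ L).card → l ≤ ctR E (R : Set (V n)) L (cfgOf (KD F D)) x := by
    intro D x hx hD hlD
    refine hlD.trans (Finset.card_le_card fun y hy => ?_)
    rw [Finset.mem_inter] at hy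
    rw [Finset.mem_filter]
    exact ⟨hy.2, reach_KD hD hx hy.1⟩
  refine ⟨KD F C1, KD F C2, ?_, ?_, ?_, ?_, ?_, ?_⟩
  · exact fun c hc => (mem_KD.1 hc).1
  · exact fun c hc => (mem_KD.1 hc).1
  · have hsub : KD F C1 ∩ KD F C2 ⊆ (C1 ∩ C2).image Sum.inl := by
      intro c hc
      rw [Finset.mem_inter, mem_KD, mem_KD] at hc
      obtain ⟨⟨_, h1⟩, ⟨_, h2⟩⟩ := hc
      rcases h1 with ⟨x, hx, rfl⟩ | ⟨x, hx, y, hy, hxy, rfl⟩
      · rcases h2 with ⟨x', hx', he⟩ | ⟨x', _, y', _, _, he⟩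
        · obtain rfl : x = x' := Sum.inl_injective he
          exact Finset.mem_image_of_mem _ (Finset.mem_inter.2 ⟨hx, hx'⟩)
        · exact absurd he (by simp)
      · rcases h2 with ⟨x', hx', he⟩ | ⟨x', hx', y', hy', _, he⟩
        · exact absurd he (by simp)
        · exfalso
          have he' : s(x, y) = s(x', y') := Sum.inr_injective he
          rw [Sym2.eq_iff] at he'
          have hm : x ∈ C1 ∩ C2 ∧ y ∈ C1 ∩ C2 := by
            rcases he' with ⟨rfl, rfl⟩ | ⟨rfl, rfl⟩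
            · exact ⟨Finset.mem_inter.2 ⟨hx, hx'⟩, Finset.mem_inter.2 ⟨hy, hy'⟩⟩
            · exact ⟨Finset.mem_inter.2 ⟨hx, hy'⟩, Finset.mem_inter.2 ⟨hy, hx'⟩⟩
          exact hxy (Finset.card_le_one.1 hC12 x hm.1 y hm.2)
    exact (Finset.card_le_card hsub).trans (Finset.card_image_le.trans hC12)
  · intro c hc
    rw [Finset.mem_inter, mem_KD, mem_KD] at hc
    obtain ⟨⟨_, h1⟩, ⟨_, h2⟩⟩ := hc
    rcases h1 with ⟨x, hx, rfl⟩ | ⟨x, hx, y, hy, hxy, rfl⟩
    · exact Finset.mem_image_of_mem _ (Finset.mem_filter.1 (hC1 hx)).1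
    · rcases h2 with ⟨x', hx', he⟩ | ⟨x', hx', y', hy', _, he⟩
      · exact absurd he (by simp)
      · exfalso
        have he' : s(x, y) = s(x', y') := Sum.inr_injective he
        rw [Sym2.eq_iff] at he'
        have hm : x ∈ C1 ∩ C2 ∧ y ∈ C1 ∩ C2 := by
          rcases he' with ⟨rfl, rfl⟩ | ⟨rfl, rfl⟩
          · exact ⟨Finset.mem_inter.2 ⟨hx, hx'⟩, Finset.mem_inter.2 ⟨hy, hy'⟩⟩
          · exact ⟨Finset.mem_inter.2 ⟨hx, hy'⟩, Finset.mem_inter.2 ⟨hy, hx'⟩⟩
        exact hxy (Finset.card_le_one.1 hC12 x hm.1 y hm.2)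
  · exact hcl C1 u huC1 hc1 hl1
  · obtain ⟨x, hx⟩ := Finset.card_pos.1 (lt_of_lt_of_le hl hl2)
    rw [Finset.mem_inter] at hx
    exact ⟨x, hx.2, hcl C2 x hx.1 hc2 hl2⟩

lemma pm_eq_Pr {ι : Type} [inst : DecidableEq ι] (r : ι → unitInterval) {J : Finset ι}
    {A : Set (ι → Bool)} (h : DepOn A (J : Set ι)) :
    (pm r).real A = H974.Pr (fun c => (r c : ℝ)) J (fun F => cfgOf F ∈ A) := by
  rw [pm_eq_EE Pool.Agent.W45.PC.s_indep Pool.Agent.W45.PC.s_depmeas r h]
  obtain rfl : inst = fun a b => Classical.propDecidable (a = b) := Subsingleton.elim _ _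
  unfold EE H974.Pr H974.Ex
  refine Finset.sum_congr rfl fun T _ => ?_
  congr 1

theorem tightR (r : Ix n → unitInterval) (E : Set (Sym2 (V n))) (R L : Finset (V n)) (hL : L ⊆ R)
    (a : ℝ) (l : ℕ) (u : V n) (hu : u ∈ R) (ha : 0 < a) (ha1 : a ≤ 1)
    (hr : ∀ x : V n, a ≤ (r (Sum.inl x) : ℝ)) (hl : 1 ≤ l) :
    (pm r).real (CTR E R L (3 * l) u) ≤
      4 / a * ((pm r).real (CTR E R L l u) * (pm r).real (MXR E R L l)) ∧
    (pm r).real (MXR E R L (3 * l)) ≤
      4 / a * ((pm r).real (MXR E R L l) * (pm r).real (MXR E R L l)) := by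
  have hfin := Pool.Agent.W975.PC.s_int_fin n (R : Set (V n)) R.finite_toSet
  set S : Finset (Ix n) := hfin.toFinset with hS
  have hsub : Int' (R : Set (V n)) ∩ rel E ⊆ (S : Set (Ix n)) := by
    intro c hc
    rw [hS, Set.Finite.coe_toFinset]
    exact hc.1
  have hok : H974.Ok (fun c => (r c : ℝ)) := fun c => ⟨(r c).2.1, (r c).2.2⟩
  have dC : ∀ m x, DepOn (CTR E (R : Set (V n)) L m x) (S : Set (Ix n)) := fun m x =>
    dep_mono (dep_CTR _ _ _ _ _) hsub
  have dM : ∀ m, DepOn (MXR E (R : Set (V n)) L m) (S : Set (Ix n)) := fun m =>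
    dep_mono (dep_MXR _ _ _ _) hsub
  have hJ : ∀ c ∈ R.image (Sum.inl : V n → Ix n), a ≤ (r c : ℝ) := by
    intro c hc
    obtain ⟨x, _, rfl⟩ := Finset.mem_image.1 hc
    exact hr x
  have iC : H974.IncrE S (fun F => cfgOf F ∈ CTR E (R : Set (V n)) L l u) := by
    intro F F' h1 _ h2
    exact le_trans h2 (ctR_mono fun y _ hy => reach_cfg (cfgOf_mono h1) hy)
  have iM : H974.IncrE S (fun F => cfgOf F ∈ MXR E (R : Set (V n)) L l) := by
    rintro F F' h1 _ ⟨x, hx, h2⟩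
    exact ⟨x, hx, le_trans h2 (ctR_mono fun y _ hy => reach_cfg (cfgOf_mono h1) hy)⟩
  constructor
  · rw [pm_eq_Pr r (dC (3 * l) u), pm_eq_Pr r (dC l u), pm_eq_Pr r (dM l)]
    refine le_trans ?_ (Pool.Agent.Y554.PL.bks (Ix n) _ a (R.image Sum.inl) S _ _ hok ha ha1 hJ
      iC iM)
    refine H974.Pr_mono hok fun F _ hF => ?_
    obtain ⟨K1, K2, h1, h2, h3, h4, h5, h6⟩ := key E R L hL l hl u hu F hF
    exact ⟨K1, K2, h1, h2, h3, h4, h5, h6⟩
  · rw [pm_eq_Pr r (dM (3 * l)), pm_eq_Pr r (dM l)]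
    refine le_trans ?_ (Pool.Agent.Y554.PL.bks (Ix n) _ a (R.image Sum.inl) S _ _ hok ha ha1 hJ
      iM iM)
    refine H974.Pr_mono hok fun F _ hF => ?_
    obtain ⟨x, hx, hF⟩ := hF
    obtain ⟨K1, K2, h1, h2, h3, h4, h5, h6⟩ := key E R L hL l hl x (hL hx) F hF
    exact ⟨K1, K2, h1, h2, h3, h4, ⟨x, hx, h5⟩, h6⟩

lemma exists_region (E : Set (Sym2 (V n))) (ω : Cfg n) (L L' : Finset (V n)) :
    ∃ R : Finset (V n), ∀ x ∈ L', ∀ y ∈ L, (G E ω univ).Reachable x y →
      (G E ω (R : Set (V n))).Reachable x y := by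
  classical
  have h : ∀ x y : V n, ∃ R : Finset (V n), (G E ω univ).Reachable x y →
      (G E ω (R : Set (V n))).Reachable x y := by
    intro x y
    by_cases hxy : (G E ω univ).Reachable x y
    · obtain ⟨R, hR⟩ := Pool.Agent.W402.PC.reach_univ hxy
      exact ⟨R, fun _ => hR⟩
    · exact ⟨∅, fun h => absurd h hxy⟩
  choose f hf using h
  refine ⟨L'.biUnion fun x => L.biUnion fun y => f x y, fun x hx y hy hxy => ?_⟩
  refine Pool.Agent.W402.PC.reach_mono ?_ (hf x y hxy)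
  intro z hz
  simp only [Finset.coe_biUnion, mem_iUnion, Finset.mem_coe]
  exact ⟨x, hx, y, hy, hz⟩

lemma real_le_of_iUnion {Ω : Type*} [MeasurableSpace Ω] (μ : Measure Ω) [IsProbabilityMeasure μ]
    (A : Finset (V n) → Set Ω) (hA : ∀ F F', F ⊆ F' → A F ⊆ A F') (B : Set Ω)
    (hB : B ⊆ ⋃ F, A F) (F0 : Finset (V n)) (c : ℝ) (hc0 : 0 ≤ c)
    (hc : ∀ F, F0 ⊆ F → μ.real (A F) ≤ c) : μ.real B ≤ c := by
  classical
  have h1 : B ⊆ ⋃ F : Finset (V n), A (F ∪ F0) := by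
    refine hB.trans (iUnion_mono fun F => hA _ _ Finset.subset_union_left)
  have hdir : Directed (· ⊆ ·) (fun F : Finset (V n) => A (F ∪ F0)) := by
    intro F F'
    refine ⟨F ∪ F', hA _ _ ?_, hA _ _ ?_⟩
    · exact Finset.union_subset_union_left Finset.subset_union_left
    · exact Finset.union_subset_union_left Finset.subset_union_right
  have h2 : μ B ≤ ENNReal.ofReal c := by
    refine (measure_mono h1).trans ?_
    rw [hdir.measure_iUnion]
    refine iSup_le fun F => ?_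
    rw [← ENNReal.ofReal_toReal (measure_ne_top μ (A (F ∪ F0)))]
    exact ENNReal.ofReal_le_ofReal (hc _ Finset.subset_union_right)
  rw [Measure.real]
  exact ENNReal.toReal_le_of_le_ofReal hc0 h2

theorem tight : S_tight := by
  classical
  intro n r E L a l u ha ha1 hr hl
  have sC : ∀ (R : Finset (V n)) (m : ℕ) (x : V n), CTR E R L m x ⊆ CT E L m x := by
    intro R m x ω hω
    exact le_trans hω (ctR_mono (R' := univ) fun y _ hy =>
      Pool.Agent.W402.PC.reach_mono (subset_univ _) hy)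
  have sM : ∀ (R : Finset (V n)) (m : ℕ), MXR E R L m ⊆ MX E L m := by
    rintro R m ω ⟨x, hx, hω⟩
    exact ⟨x, hx, sC R m x hω⟩
  have h4a : 0 ≤ 4 / a := by positivity
  have mono1 : ∀ (m : ℕ) (x : V n) (F F' : Finset (V n)), F ⊆ F' →
      CTR E (F : Set (V n)) L m x ⊆ CTR E (F' : Set (V n)) L m x := by
    intro m x F F' h ω hω
    exact le_trans hω (ctR_mono fun y _ hy =>
      Pool.Agent.W402.PC.reach_mono (Finset.coe_subset.2 h) hy)
  constructor
  · refine real_le_of_iUnion (pm r) (fun F => CTR E (F : Set (V n)) L (3 * l) u)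
      (mono1 _ _) _ ?_ (insert u L) _ ?_ ?_
    · intro ω hω
      obtain ⟨R, hR⟩ := exists_region E ω L {u}
      rw [mem_iUnion]
      refine ⟨R, le_trans hω (ctR_mono (R := univ) fun y hy h => ?_)⟩
      exact hR u (Finset.mem_singleton_self u) y hy h
    · positivity
    · intro F hF
      refine ((tightR r E F L ((Finset.subset_insert _ _).trans hF) a l u
        (hF (Finset.mem_insert_self _ _)) ha ha1 hr hl).1).trans ?_
      refine mul_le_mul_of_nonneg_left ?_ h4a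
      exact mul_le_mul (measureReal_mono (sC _ _ _)) (measureReal_mono (sM _ _))
        measureReal_nonneg measureReal_nonneg
  · refine real_le_of_iUnion (pm r) (fun F => MXR E (F : Set (V n)) L (3 * l)) ?_ _ ?_
      (insert u L) _ ?_ ?_
    · rintro F F' h ω ⟨x, hx, hω⟩
      exact ⟨x, hx, mono1 _ _ F F' h hω⟩
    · rintro ω ⟨x, hx, hω⟩
      obtain ⟨R, hR⟩ := exists_region E ω L L
      rw [mem_iUnion]
      refine ⟨R, x, hx, le_trans hω (ctR_mono (R := univ) fun y hy h => ?_)⟩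
      exact hR x hx y hy h
    · positivity
    · intro F hF
      refine ((tightR r E F L ((Finset.subset_insert _ _).trans hF) a l u
        (hF (Finset.mem_insert_self _ _)) ha ha1 hr hl).2).trans ?_
      refine mul_le_mul_of_nonneg_left ?_ h4a
      rw [sq]
      exact mul_le_mul (measureReal_mono (sM _ _)) (measureReal_mono (sM _ _))
        measureReal_nonneg measureReal_nonneg

end

end Pool.Agent.Y288.PL
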